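import Mathlib

/-!
Project MH (helper69): modular Hadamard matrices.  Combinatorial definitions.
`ε = 1` (symmetric) or `ε = -1` (skew).
-/

namespace Pool.Agent.W69.MH

/-- conference matrix modulo `m`: zero diagonal, entries `1` and `-1` off the diagonal, transpose equal to
`ε` times the matrix, inner products of distinct rows divisible by `m` -/
structure IsConf (ε m : ℤ) {ι : Type} [Fintype ι] [DecidableEq ι] (C : Matrix ι ι ℤ) : Prop where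
  diag : ∀ i, C i i = 0
  off : ∀ i j, i ≠ j → C i j = 1 ∨ C i j = -1
  sym : ∀ i j, C j i = ε * C i j
  orth : ∀ i j, i ≠ j → m ∣ ∑ k, C i k * C j k

/-- core modulo `m`: zero diagonal, entries `1` and `-1` off the diagonal, transpose equal to
`ε` times the matrix, row sums divisible by `m`, inner products of distinct rows `-1` modulo `m` -/
structure IsCore (ε m : ℤ) {ι : Type} [Fintype ι] [DecidableEq ι] (Q : Matrix ι ι ℤ) : Prop where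
  diag : ∀ i, Q i i = 0
  off : ∀ i j, i ≠ j → Q i j = 1 ∨ Q i j = -1
  sym : ∀ i j, Q j i = ε * Q i j
  row : ∀ i, m ∣ ∑ k, Q i k
  orth : ∀ i j, i ≠ j → m ∣ (∑ k, Q i k * Q j k) + 1

def HasConf (ε m : ℤ) (n : ℕ) : Prop := ∃ C : Matrix (Fin n) (Fin n) ℤ, IsConf ε m C

def HasCore (ε m : ℤ) (n : ℕ) : Prop := ∃ Q : Matrix (Fin n) (Fin n) ℤ, IsCore ε m Q

/-- sign matrix of order `n` whose distinct rows have inner products divisible by `m` -/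
def HasMod (m : ℤ) (n : ℕ) : Prop := ∃ H : Matrix (Fin n) (Fin n) ℤ,
  (∀ i j, H i j = 1 ∨ H i j = -1) ∧ ∀ i j, i ≠ j → m ∣ ∑ k, H i k * H j k

def St_CORE : Prop := ∀ (ε m : ℤ) (n : ℕ), ε = 1 ∨ ε = -1 → HasConf ε m (n + 1) → HasCore ε m n

def St_PAL : Prop := ∀ (ε m : ℤ) (p : ℕ), p.Prime → ε = 1 ∨ ε = -1 → (4 : ℤ) ∣ (p : ℤ) - ε →
  HasCore ε m p ∧ HasConf ε m (p + 1)

def St_COMP : Prop := ∀ (ε m u : ℤ) (r : ℕ) (v : Fin r → ℕ), ε = 1 ∨ ε = -1 → HasConf ε m r →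
  (∀ i, HasCore ε m (v i)) → (∀ i, m ∣ (v i : ℤ) - u) → m ∣ ((r : ℤ) - 1) * u - 1 →
  HasConf ε m (∑ i, v i)

def St_HAD : Prop := (∀ (m : ℤ) (n : ℕ), HasConf (-1) m n → HasMod m n) ∧
  (∀ (m : ℤ) (n : ℕ), HasConf 1 m n → HasMod (2 * m) (2 * n)) ∧
  (∀ (m : ℤ) (n : ℕ), HasMod m n → HasMod (2 * m) (2 * n))

/-- the numbers generated by the composition -/
def St_SEM : Prop := ∀ (m u X p : ℕ) (S : Finset ℕ) (P : ℕ → Prop), 2 ≤ m → S.Nonempty →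
  (∀ q ∈ S, m < q ∧ q ≤ X ∧ q % m = u % m) →
  (∀ l : ℕ, l.Prime → ∀ q0 ∈ S, ∃ q ∈ S, ¬ ((m * l : ℕ) : ℤ) ∣ (q : ℤ) - (q0 : ℤ)) →
  m < p → p ≤ X → (p * u) % m = 1 → (∀ q ∈ S, P q) →
  (∀ f : Fin (p + 1) → ℕ, (∀ i, P (f i) ∧ f i % m = u % m) → P (∑ i, f i - 1)) →
  ∀ v : ℕ, v % m = u % m → X ^ 6 ≤ v → P v

end Pool.Agent.W69.MH
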