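import Mathlib
import Pool.Agent.H262R3.Lk.Stubs
import Pool.Agent.W69.MH.Defs

/-!
Project MH (helper69): primes in progressions to moduli `2 ^ k * d` (Linnik), exact statements of the tasks.
The definitions `Aj, Bj, Lj, Dj, Mj, rc` and the first statements are in `Pool.Agent.H262R3.Lk`.
-/

open Finset

namespace Pool.Agent.W69.MH

open Pool.Agent.H262R3.Lk

/-- ABS: the finite Fourier argument -/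
def St_ABS : Prop := ∀ (q : ℕ) [NeZero q] (a1 a2 a3 d0 d2 m : (ZMod q)ˣ → ℂ)
  (L0 : DirichletCharacter ℂ q → ℂ) (T1 T2 T3 P R lam : ℝ), 0 ≤ T1 → 0 ≤ T2 → 0 ≤ T3 → 0 < lam →
  (∀ x y, ‖a1 x - a1 y‖ ≤ T1 / q.totient) → (∀ x y, ‖a2 x - a2 y‖ ≤ T2 / q.totient) →
  (∀ x y, ‖a3 x - a3 y‖ ≤ T3 / q.totient) → ∑ x, ‖m x‖ ≤ P → ∑ x, ‖d0 x‖ ≤ R →
  (∀ χ : DirichletCharacter ℂ q, (∑ x : (ZMod q)ˣ, χ x * m x) * L0 χ = 1) →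
  (∀ χ : DirichletCharacter ℂ q, ∑ x : (ZMod q)ˣ, χ x * a1 x = (∑ x : (ZMod q)ˣ, χ x * d0 x) * L0 χ) →
  (∀ χ : DirichletCharacter ℂ q, (∑ x : (ZMod q)ˣ, χ x * d2 x) * L0 χ =
    (∑ x : (ZMod q)ˣ, χ x * a3 x) - 3 * (∑ x : (ZMod q)ˣ, χ x * d0 x) * (∑ x : (ZMod q)ˣ, χ x * a2 x) +
      2 * (∑ x : (ZMod q)ˣ, χ x * d0 x) ^ 3 * L0 χ) →
  (∀ χ : DirichletCharacter ℂ q, χ ≠ 1 → lam ≤ ‖L0 χ‖) →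
  ∀ b, ‖(q.totient : ℂ) * d2 b - ∑ x, d2 x‖ ≤ T3 * P + 3 * T2 * P * R + 2 * T1 ^ 3 * P ^ 2 / lam

/-- CLS: splitting the series into residue classes -/
def St_CLS : Prop := ∀ (z q : ℕ) [NeZero q] (σ : ℝ), 32 ≤ z → q ≤ z → 0 < σ →
  (∀ (χ : DirichletCharacter ℂ q) (j : ℕ), 1 ≤ j → Lj z χ j σ =
    ∑ x : (ZMod q)ˣ, χ x * (Aj z q (x : ZMod q).val j σ : ℂ)) ∧
  (∀ χ : DirichletCharacter ℂ q, Lj z χ 0 σ =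
    1 + ∑ x : (ZMod q)ˣ, χ x * (Aj z q (x : ZMod q).val 0 σ : ℂ)) ∧
  (∀ (χ : DirichletCharacter ℂ q) (j : ℕ), Dj z χ j σ =
    ∑ x : (ZMod q)ˣ, χ x * (Bj z q (x : ZMod q).val j σ : ℂ)) ∧
  (∃ m : (ZMod q)ˣ → ℂ, (∀ χ : DirichletCharacter ℂ q, Mj z χ σ = ∑ x : (ZMod q)ˣ, χ x * m x) ∧
    ∑ x, ‖m x‖ ≤ 1 + ∑ x : (ZMod q)ˣ, Aj z q (x : ZMod q).val 0 σ) ∧
  (∀ j : ℕ, ∑ x : (ZMod q)ˣ, Bj z q (x : ZMod q).val j σ = Bj z 1 1 j σ)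

/-- LIN: the lower bound in every class, if no real character is exceptional -/
def St_LIN : Prop := ∃ A c : ℝ, 1 ≤ A ∧ 0 < c ∧ ∃ z0 : ℕ, ∀ (z q b : ℕ) [NeZero q], z0 ≤ z →
  q ^ 8 ≤ z → b.Coprime q →
  (∀ χ : DirichletCharacter ℂ q, χ ≠ 1 → χ ^ 2 = 1 → 1 / 2 ≤ ‖Lj z χ 0 (1 / (A * Real.log z))‖) →
  c * (Real.log z) ^ 3 / q.totient ≤ Bj z q b 2 (1 / (A * Real.log z))

/-- TAIL: prime powers and large primes contribute little -/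
def St_TAIL : Prop := ∀ A c : ℝ, 1 ≤ A → 0 < c → ∃ K z0 : ℕ, 1 ≤ K ∧ ∀ z q b : ℕ, z0 ≤ z → 1 ≤ q →
  q ^ 8 ≤ z → b.Coprime q → Bj z q b 2 (1 / (A * Real.log z)) ≤ c * (Real.log z) ^ 3 / q.totient +
    (K : ℝ) ^ 3 * (Real.log z) ^ 3 *
      ∑ p ∈ (Ioc z (z ^ K)).filter (fun p => p.Prime ∧ p ≡ b [MOD q]), (1 : ℝ) / p

/-- REAL: no real character modulo `2 ^ k * d` is exceptional, `d` small -/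
def St_REAL : Prop := ∀ B : ℕ, ∃ z0 : ℕ, ∀ z : ℕ, z0 ≤ z → ∀ k d : ℕ, Odd d →
  (d : ℝ) ≤ (Real.log z) ^ B → 2 ^ k * d ≤ z → ∀ χ : DirichletCharacter ℂ (2 ^ k * d), χ ≠ 1 →
  χ ^ 2 = 1 → ∀ σ : ℝ, 0 < σ → σ ≤ 1 → 1 / 2 ≤ ‖Lj z χ 0 σ‖

/-- PR: many primes in every class modulo `2 ^ k * d`, `d` small, up to a fixed power of the modulus -/
def St_PR : Prop := ∃ (K : ℕ) (c : ℝ), 1 ≤ K ∧ 0 < c ∧ ∀ B : ℕ, ∃ z0 : ℕ, ∀ z : ℕ, z0 ≤ z →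
  ∀ k d b : ℕ, Odd d → (d : ℝ) ≤ (Real.log z) ^ B → (2 ^ k * d) ^ 8 ≤ z → b.Coprime (2 ^ k * d) →
  c / ((2 ^ k * d).totient : ℝ) ≤
    ∑ p ∈ (Ioc z (z ^ K)).filter (fun p => p.Prime ∧ p ≡ b [MOD 2 ^ k * d]), (1 : ℝ) / p

/-- GEN: the primes needed for the composition -/
def St_GEN : Prop := ∃ K : ℕ, 1 ≤ K ∧ ∀ B : ℕ, ∃ z0 : ℕ, ∀ z : ℕ, z0 ≤ z → ∀ m k d u : ℕ,
  m = 2 ^ k * d → 2 ≤ k → Odd d → (d : ℝ) ≤ (Real.log z) ^ B → m ^ 16 ≤ z → u.Coprime m →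
  (∃ p : ℕ, p.Prime ∧ z < p ∧ p ≤ z ^ K ∧ (p * u) % m = 1) ∧
  (∃ q : ℕ, q.Prime ∧ z < q ∧ q ≤ z ^ K ∧ q % m = u % m) ∧
  ∀ l q0 : ℕ, l.Prime → q0.Prime → z < q0 → q0 ≤ z ^ K → q0 % m = u % m →
    ∃ q : ℕ, q.Prime ∧ z < q ∧ q ≤ z ^ K ∧ q % m = u % m ∧ ¬ ((m * l : ℕ) : ℤ) ∣ (q : ℤ) - (q0 : ℤ)

/-- CONF: modular conference matrices -/
def St_CONF : Prop := ∃ c : ℝ, 0 < c ∧ ∀ B : ℕ, ∃ n0 : ℕ, ∀ n : ℕ, n0 ≤ n → ∀ k d : ℕ, Odd d →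
  (d : ℝ) ≤ (Real.log n) ^ B → (2 : ℝ) ^ k * d ≤ (n : ℝ) ^ c → Nat.Coprime (n - 1) d →
  (4 ∣ n → HasConf (-1) (2 ^ k * d) n) ∧ (n % 4 = 2 → HasConf 1 (2 ^ k * d) n)

end Pool.Agent.W69.MH
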