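import Mathlib
import Pool.Agent.W69.MH.Defs

open Finset Matrix

namespace Pool.Agent.W69.MH

/-- reindexing a conference matrix -/
theorem IsConf.reindex {ε m : ℤ} {ι κ : Type} [Fintype ι] [DecidableEq ι] [Fintype κ] [DecidableEq κ]
    {C : Matrix ι ι ℤ} (h : IsConf ε m C) (e : κ ≃ ι) : IsConf ε m (fun i j => C (e i) (e j)) where
  diag i := h.diag _
  off i j hij := h.off _ _ (fun h' => hij (e.injective h'))
  sym i j := h.sym _ _
  orth i j hij := by
    have := h.orth (e i) (e j) (fun h' => hij (e.injective h'))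
    rw [← Equiv.sum_comp e (fun k => C (e i) k * C (e j) k)] at this
    exact this

/-- the composed matrix -/
def cmp {r : ℕ} (v : Fin r → ℕ) (E : Matrix (Fin r) (Fin r) ℤ)
    (Q : ∀ i, Matrix (Fin (v i)) (Fin (v i)) ℤ) : Matrix (Σ i, Fin (v i)) (Σ i, Fin (v i)) ℤ :=
  fun a b => if h : a.1 = b.1 then Q b.1 (h ▸ a.2) b.2 else E a.1 b.1

theorem cmp_same {r : ℕ} (v : Fin r → ℕ) (E : Matrix (Fin r) (Fin r) ℤ)
    (Q : ∀ i, Matrix (Fin (v i)) (Fin (v i)) ℤ) (i : Fin r) (a b : Fin (v i)) :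
    cmp v E Q ⟨i, a⟩ ⟨i, b⟩ = Q i a b := by
  simp [cmp]

theorem cmp_diff {r : ℕ} (v : Fin r → ℕ) (E : Matrix (Fin r) (Fin r) ℤ)
    (Q : ∀ i, Matrix (Fin (v i)) (Fin (v i)) ℤ) {i j : Fin r} (h : i ≠ j) (a : Fin (v i)) (b : Fin (v j)) :
    cmp v E Q ⟨i, a⟩ ⟨j, b⟩ = E i j := by
  simp [cmp, h]

theorem comp : St_COMP := by
  intro ε m u r v hε hE hQ hv hr
  obtain ⟨E, hE⟩ := hE
  choose Q hQ using hQ
  have hε2 : ε * ε = 1 := by rcases hε with h | h <;> rw [h] <;> norm_num
  -- values of E are signs off the diagonal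
  have hE2 : ∀ i j, i ≠ j → E i j * E i j = 1 := by
    intro i j hij
    rcases hE.off i j hij with h | h <;> rw [h] <;> norm_num
  have hsum : ∀ a b : Σ i, Fin (v i), ∑ c, cmp v E Q a c * cmp v E Q b c =
      ∑ k : Fin r, ∑ c : Fin (v k), cmp v E Q a ⟨k, c⟩ * cmp v E Q b ⟨k, c⟩ := by
    intro a b
    rw [← Finset.univ_sigma_univ, Finset.sum_sigma]
  have key : IsConf ε m (cmp v E Q) := by
    refine ⟨?_, ?_, ?_, ?_⟩
    · rintro ⟨i, a⟩
      rw [cmp_same]
      exact (hQ i).diag a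
    · rintro ⟨i, a⟩ ⟨j, b⟩ hab
      by_cases hij : i = j
      · subst hij
        rw [cmp_same]
        apply (hQ i).off
        intro h
        exact hab (by rw [h])
      · rw [cmp_diff v E Q hij]
        exact hE.off i j hij
    · rintro ⟨i, a⟩ ⟨j, b⟩
      by_cases hij : i = j
      · subst hij
        rw [cmp_same, cmp_same]
        exact (hQ i).sym a b
      · rw [cmp_diff v E Q hij, cmp_diff v E Q (Ne.symm hij)]
        exact hE.sym i j
    · rintro ⟨i, a⟩ ⟨j, b⟩ hab
      rw [hsum]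
      by_cases hij : i = j
      · subst hij
        have hab' : a ≠ b := fun h => hab (by rw [h])
        -- split off the block i
        rw [← Finset.add_sum_erase _ _ (Finset.mem_univ i)]
        have h1 : ∀ k ∈ univ.erase i, ∑ c : Fin (v k), cmp v E Q ⟨i, a⟩ ⟨k, c⟩ * cmp v E Q ⟨i, b⟩ ⟨k, c⟩ =
            (v k : ℤ) := by
          intro k hk
          have hki : i ≠ k := (Finset.ne_of_mem_erase hk).symm
          rw [Finset.sum_congr rfl (fun c _ => by
            rw [cmp_diff v E Q hki, cmp_diff v E Q hki, hE2 i k hki])]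
          simp
        rw [Finset.sum_congr rfl h1]
        have h2 : ∑ c : Fin (v i), cmp v E Q ⟨i, a⟩ ⟨i, c⟩ * cmp v E Q ⟨i, b⟩ ⟨i, c⟩ =
            ∑ c, Q i a c * Q i b c := Finset.sum_congr rfl (fun c _ => by rw [cmp_same, cmp_same])
        rw [h2]
        have h3 := (hQ i).orth a b hab'
        have h4 : m ∣ ∑ k ∈ univ.erase i, ((v k : ℤ) - u) := Finset.dvd_sum (fun k _ => hv k)
        rw [Finset.sum_sub_distrib, Finset.sum_const, Finset.card_erase_of_mem (Finset.mem_univ i),
          Finset.card_univ, Fintype.card_fin, nsmul_eq_mul] at h4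
        have hr1 : 1 ≤ r := by
          have := i.pos
          omega
        rw [Nat.cast_sub hr1, Nat.cast_one] at h4
        have h5 := dvd_add (dvd_add h3 h4) hr
        have e : (∑ k, Q i a k * Q i b k) + 1 + (∑ k ∈ univ.erase i, (v k : ℤ) - ((r : ℤ) - 1) * u) +
            (((r : ℤ) - 1) * u - 1) = (∑ c, Q i a c * Q i b c) + ∑ k ∈ univ.erase i, (v k : ℤ) := by ring
        rwa [e] at h5
      · -- blocks i, j and the others
        have hj : j ∈ univ.erase i := Finset.mem_erase.2 ⟨Ne.symm hij, Finset.mem_univ j⟩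
        rw [← Finset.add_sum_erase _ _ (Finset.mem_univ i), ← Finset.add_sum_erase _ _ hj]
        have h1 : ∑ c : Fin (v i), cmp v E Q ⟨i, a⟩ ⟨i, c⟩ * cmp v E Q ⟨j, b⟩ ⟨i, c⟩ =
            (∑ c, Q i a c) * E j i := by
          rw [Finset.sum_mul]
          exact Finset.sum_congr rfl (fun c _ => by rw [cmp_same, cmp_diff v E Q (Ne.symm hij)])
        have h2 : ∑ c : Fin (v j), cmp v E Q ⟨i, a⟩ ⟨j, c⟩ * cmp v E Q ⟨j, b⟩ ⟨j, c⟩ =
            E i j * (∑ c, Q j b c) := by
          rw [Finset.mul_sum]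
          exact Finset.sum_congr rfl (fun c _ => by rw [cmp_same, cmp_diff v E Q hij])
        have h3 : ∀ k ∈ (univ.erase i).erase j, ∑ c : Fin (v k), cmp v E Q ⟨i, a⟩ ⟨k, c⟩ *
            cmp v E Q ⟨j, b⟩ ⟨k, c⟩ = (v k : ℤ) * (E i k * E j k) := by
          intro k hk
          have hkj : j ≠ k := (Finset.ne_of_mem_erase hk).symm
          have hki : i ≠ k := (Finset.ne_of_mem_erase (Finset.mem_of_mem_erase hk)).symm
          rw [Finset.sum_congr rfl (fun c _ => by
            rw [cmp_diff v E Q hki, cmp_diff v E Q hkj])]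
          simp
        rw [h1, h2, Finset.sum_congr rfl h3]
        refine dvd_add (Dvd.dvd.mul_right ((hQ i).row a) _)
          (dvd_add (Dvd.dvd.mul_left ((hQ j).row b) _) ?_)
        -- the sum over the others
        have h4 : ∑ k ∈ (univ.erase i).erase j, (v k : ℤ) * (E i k * E j k) =
            ∑ k ∈ (univ.erase i).erase j, ((v k : ℤ) - u) * (E i k * E j k) +
              u * ∑ k ∈ (univ.erase i).erase j, E i k * E j k := by
          rw [Finset.mul_sum, ← Finset.sum_add_distrib]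
          exact Finset.sum_congr rfl (fun k _ => by ring)
        rw [h4]
        refine dvd_add (Finset.dvd_sum (fun k _ => Dvd.dvd.mul_right (hv k) _)) ?_
        have h5 := hE.orth i j hij
        rw [← Finset.add_sum_erase _ _ (Finset.mem_univ i), ← Finset.add_sum_erase _ _ hj, hE.diag i,
          hE.diag j, zero_mul, mul_zero, zero_add, zero_add] at h5
        exact Dvd.dvd.mul_left h5 _
  have hcard : Fintype.card (Σ i, Fin (v i)) = ∑ i, v i := by simp
  let e : Fin (∑ i, v i) ≃ Σ i, Fin (v i) := (Fintype.equivFinOfCardEq hcard).symm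
  exact ⟨_, key.reindex e⟩

end Pool.Agent.W69.MH
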