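import Mathlib
import Pool.Agent.W69.MH.Stm
import Pool.Agent.W69.MH.Comp

open Finset Filter

namespace Pool.Agent.W69.MH

/-- bordering a core -/
theorem conf_of_core {ε m : ℤ} (hε : ε = 1 ∨ ε = -1) {n : ℕ} (h : HasCore ε m n) :
    HasConf ε m (n + 1) := by
  obtain ⟨Q, hQ⟩ := h
  have hε2 : ε * ε = 1 := by rcases hε with h | h <;> rw [h] <;> norm_num
  let C : Matrix (Fin (n + 1)) (Fin (n + 1)) ℤ := fun i j =>
    Fin.cases (Fin.cases 0 (fun _ => 1) j) (fun a => Fin.cases ε (fun b => Q a b) j) i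
  refine ⟨C, ?_, ?_, ?_, ?_⟩
  · intro i
    refine Fin.cases ?_ (fun a => ?_) i
    · rfl
    · exact hQ.diag a
  · intro i j
    refine Fin.cases ?_ (fun a => ?_) i
    · refine Fin.cases ?_ (fun b => ?_) j
      · intro h; exact absurd rfl h
      · intro _; exact Or.inl rfl
    · refine Fin.cases ?_ (fun b => ?_) j
      · intro _; exact hε
      · intro h
        exact hQ.off a b (fun h' => h (by rw [h']))
  · intro i j
    refine Fin.cases ?_ (fun a => ?_) i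
    · refine Fin.cases ?_ (fun b => ?_) j
      · show (0 : ℤ) = ε * 0
        ring
      · show ε = ε * 1
        ring
    · refine Fin.cases ?_ (fun b => ?_) j
      · show (1 : ℤ) = ε * ε
        exact hε2.symm
      · exact hQ.sym a b
  · intro i j
    rw [Fin.sum_univ_succ]
    refine Fin.cases ?_ (fun a => ?_) i
    · refine Fin.cases ?_ (fun b => ?_) j
      · intro h; exact absurd rfl h
      · intro _
        show m ∣ 0 * ε + ∑ k : Fin n, 1 * Q b k
        simp only [one_mul, zero_mul, zero_add]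
        exact hQ.row b
    · refine Fin.cases ?_ (fun b => ?_) j
      · intro _
        show m ∣ ε * 0 + ∑ k : Fin n, Q a k * 1
        simp only [mul_one, mul_zero, zero_add]
        exact hQ.row a
      · intro h
        show m ∣ ε * ε + ∑ k : Fin n, Q a k * Q b k
        rw [hε2, add_comm]
        exact hQ.orth a b (fun h' => h (by rw [h']))

theorem HasConf.of_dvd {ε m m' : ℤ} {n : ℕ} (h : HasConf ε m' n) (hm : m ∣ m') : HasConf ε m n := by
  obtain ⟨C, hC⟩ := h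
  exact ⟨C, hC.diag, hC.off, hC.sym, fun i j hij => hm.trans (hC.orth i j hij)⟩

/-- the composition argument for one modulus `m`, one `n` -/
theorem conf_one (hSEM : St_SEM) (hCORE : St_CORE) (hPAL : St_PAL) {ε : ℤ} (hε : ε = 1 ∨ ε = -1)
    {m n X z p : ℕ} (hm4 : 4 ∣ m) (hm : 2 ≤ m) (hmz : m ≤ z) (hn : (4 : ℤ) ∣ ((n : ℤ) - 1) - ε) (hn1 : 1 ≤ n)
    (hX : X ^ 6 ≤ n - 1) (hcop : (n - 1).Coprime m)
    (hp : p.Prime) (hzp : z < p) (hpX : p ≤ X) (hpu : (p * (n - 1)) % m = 1)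
    (hq : ∃ q : ℕ, q.Prime ∧ z < q ∧ q ≤ X ∧ q % m = (n - 1) % m)
    (hl : ∀ l q0 : ℕ, l.Prime → q0.Prime → z < q0 → q0 ≤ X → q0 % m = (n - 1) % m →
      ∃ q : ℕ, q.Prime ∧ z < q ∧ q ≤ X ∧ q % m = (n - 1) % m ∧ ¬ ((m * l : ℕ) : ℤ) ∣ (q : ℤ) - (q0 : ℤ)) :
    HasConf ε m n := by
  set u := n - 1 with hu
  have hnu : n = u + 1 := by omega
  have hucast : ((n : ℤ) - 1) = (u : ℤ) := by rw [hnu]; push_cast; ring
  rw [hucast] at hn
  have hm4' : (4 : ℤ) ∣ (m : ℤ) := by exact_mod_cast hm4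
  set S : Finset ℕ := (Ioc z X).filter (fun q => q.Prime ∧ q % m = u % m) with hS
  have hmem : ∀ q, q ∈ S ↔ (z < q ∧ q ≤ X) ∧ q.Prime ∧ q % m = u % m := by
    intro q
    rw [hS, mem_filter, mem_Ioc]
  have hdvd : ∀ q : ℕ, q % m = u % m → (m : ℤ) ∣ (q : ℤ) - (u : ℤ) := by
    intro q h
    exact (Int.natCast_modEq_iff.2 (show u ≡ q [MOD m] from h.symm)).dvd
  have h1 := hSEM m u X p S (HasCore ε m) hm ?_ ?_ ?_ (by omega) hpX hpu ?_ ?_ u rfl hX
  · have h2 := conf_of_core hε h1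
    rwa [← hnu] at h2
  · obtain ⟨q, h1, h2, h3, h4⟩ := hq
    exact ⟨q, (hmem q).2 ⟨⟨h2, h3⟩, h1, h4⟩⟩
  · intro q hq
    obtain ⟨⟨h2, h3⟩, h4, h5⟩ := (hmem q).1 hq
    exact ⟨by omega, h3, h5⟩
  · intro l hlp q0 hq0
    obtain ⟨⟨h2, h3⟩, h4, h5⟩ := (hmem q0).1 hq0
    obtain ⟨q, g1, g2, g3, g4, g5⟩ := hl l q0 hlp h4 h2 h3 h5
    exact ⟨q, (hmem q).2 ⟨⟨g2, g3⟩, g1, g4⟩, g5⟩
  · intro q hq
    obtain ⟨⟨h2, h3⟩, h4, h5⟩ := (hmem q).1 hq
    refine (hPAL ε m q h4 hε ?_).1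
    have e : (q : ℤ) - ε = ((q : ℤ) - u) + ((u : ℤ) - ε) := by ring
    rw [e]
    exact dvd_add (hm4'.trans (hdvd q h5)) hn
  · intro f hf
    have hpu' : (m : ℤ) ∣ (p : ℤ) * u - 1 := by
      have h3 : (p * u) ≡ 1 [MOD m] := by
        show (p * u) % m = 1 % m
        rw [hpu, Nat.mod_eq_of_lt (by omega)]
      have h4 := (Int.natCast_modEq_iff.2 h3.symm).dvd
      push_cast at h4
      exact h4
    have hpε : (4 : ℤ) ∣ (p : ℤ) - ε := by
      have h3 : (4 : ℤ) ∣ (p : ℤ) * u - 1 := hm4'.trans hpu'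
      have hε2 : ε * ε = 1 := by rcases hε with h | h <;> rw [h] <;> norm_num
      have e : (p : ℤ) - ε = ((p : ℤ) * u - 1) * ε - (p * ε) * (u - ε) := by
        linear_combination (-(p : ℤ)) * hε2
      rw [e]
      exact dvd_sub (Dvd.dvd.mul_right h3 _) (Dvd.dvd.mul_left hn _)
    have hconf := (hPAL ε m p hp hε hpε).2
    have h3 := comp ε m u (p + 1) f hε hconf (fun i => (hf i).1) (fun i => hdvd _ (hf i).2) (by
      have e : (((p + 1 : ℕ) : ℤ) - 1) * (u : ℤ) - 1 = (p : ℤ) * u - 1 := by push_cast; ring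
      rw [e]
      exact hpu')
    have hpos : 0 < f 0 := by
      rcases Nat.eq_zero_or_pos (f 0) with h0 | h0
      · exfalso
        have h5 := (hf 0).2
        rw [h0, Nat.zero_mod] at h5
        have h6 : m ∣ u := Nat.dvd_of_mod_eq_zero h5.symm
        have h7 := Nat.Coprime.eq_one_of_dvd hcop.symm h6
        omega
      · exact h0
    have hsum : 1 ≤ ∑ i, f i := by
      refine le_trans hpos ?_
      exact Finset.single_le_sum (f := f) (fun _ _ => Nat.zero_le _) (Finset.mem_univ 0)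
    have h4 : ∑ i, f i = (∑ i, f i - 1) + 1 := by omega
    rw [h4] at h3
    exact hCORE ε m _ hε h3

end Pool.Agent.W69.MH
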