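import Mathlib
import Pool.Agent.W69.MH.Conf

open Finset Filter

namespace Pool.Agent.W69.MH

/-- `z(n)` -/
noncomputable def zn (K n : ℕ) : ℕ := ⌊(n : ℝ) ^ (1 / (7 * K : ℝ))⌋₊

theorem zn_pow {K n : ℕ} (hK : 1 ≤ K) : (zn K n) ^ (7 * K) ≤ n := by
  have hK' : (0 : ℝ) < 7 * K := by
    have : (1 : ℝ) ≤ K := by exact_mod_cast hK
    linarith
  have h0 : (0 : ℝ) ≤ (n : ℝ) ^ (1 / (7 * K : ℝ)) := by positivity
  have h1 : (zn K n : ℝ) ≤ (n : ℝ) ^ (1 / (7 * K : ℝ)) := Nat.floor_le h0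
  have h2 : (zn K n : ℝ) ^ (7 * K) ≤ ((n : ℝ) ^ (1 / (7 * K : ℝ))) ^ (7 * K) :=
    pow_le_pow_left₀ (Nat.cast_nonneg _) h1 _
  have h3 : ((n : ℝ) ^ (1 / (7 * K : ℝ))) ^ (7 * K) = n := by
    rw [← Real.rpow_natCast, ← Real.rpow_mul (Nat.cast_nonneg _)]
    push_cast
    rw [one_div_mul_cancel hK'.ne', Real.rpow_one]
  rw [h3] at h2
  exact_mod_cast h2

theorem lt_zn {K n : ℕ} : (n : ℝ) ^ (1 / (7 * K : ℝ)) < (zn K n : ℝ) + 1 := Nat.lt_floor_add_one _

theorem zn_tendsto {K : ℕ} (hK : 1 ≤ K) : Tendsto (fun n : ℕ => (n : ℝ) ^ (1 / (7 * K : ℝ))) atTop atTop := by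
  have hK' : (0 : ℝ) < 7 * K := by
    have : (1 : ℝ) ≤ K := by exact_mod_cast hK
    linarith
  exact (tendsto_rpow_atTop (by positivity)).comp tendsto_natCast_atTop_atTop

theorem conf (hGEN : St_GEN) (hSEM : St_SEM) (hCORE : St_CORE) (hPAL : St_PAL) : St_CONF := by
  obtain ⟨K, hK, hG⟩ := hGEN
  have hK1 : (1 : ℝ) ≤ K := by exact_mod_cast hK
  refine ⟨1 / (224 * K), by positivity, fun B => ?_⟩
  obtain ⟨z0, hz0⟩ := hG (B + 1)
  -- the size conditions
  have ev1 := (zn_tendsto hK).eventually_ge_atTop (z0 + 3 : ℝ)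
  have ev2 := (zn_tendsto hK).eventually_ge_atTop ((2 * 4 ^ 16) ^ 2 : ℝ)
  have ev3 := (zn_tendsto hK).eventually_ge_atTop (Real.exp ((14 * K) ^ B) + 1)
  obtain ⟨n0, hn0⟩ := (ev1.and (ev2.and ev3)).exists_forall_of_atTop
  refine ⟨n0, fun n hn k d hd hdB hkd hcop => ?_⟩
  obtain ⟨h1, h2, h3⟩ := hn0 n hn
  set t : ℝ := (n : ℝ) ^ (1 / (7 * K : ℝ)) with ht
  set z : ℕ := zn K n with hz
  have hzt : t < z + 1 := lt_zn
  have hzz0 : (z0 : ℝ) + 2 ≤ z := by linarith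
  have hzz0' : z0 + 2 ≤ z := by exact_mod_cast hzz0
  have hz2 : 2 ≤ z := by omega
  have hz2r : (2 : ℝ) ≤ z := by exact_mod_cast hz2
  have ht2z : t ≤ 2 * z := by linarith
  have ht0 : 0 < t := by
    have := Real.exp_pos ((14 * K : ℝ) ^ B)
    linarith
  have hn1 : 0 < n := by
    rcases Nat.eq_zero_or_pos n with h | h
    · exfalso
      have : z ^ (7 * K) ≤ n := zn_pow hK
      rw [h] at this
      have : 0 < z ^ (7 * K) := by positivity
      omega
    · exact h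
  have hnr : (0 : ℝ) < n := by exact_mod_cast hn1
  -- log n
  have hlogn : Real.log n = 7 * K * Real.log t := by
    rw [ht, Real.log_rpow hnr]
    field_simp
  have hlogz0 : 0 < Real.log z := Real.log_pos (by linarith)
  have hlogt : Real.log t ≤ 2 * Real.log z := by
    have h4 : Real.log t ≤ Real.log (z * z) := by
      apply Real.log_le_log ht0
      nlinarith
    rw [Real.log_mul (by linarith) (by linarith)] at h4
    linarith
  have hlogn2 : Real.log n ≤ 14 * K * Real.log z := by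
    rw [hlogn]
    nlinarith
  have hlogn0 : 0 ≤ Real.log n := Real.log_nonneg (by exact_mod_cast hn1)
  have hlz : (14 * K : ℝ) ^ B ≤ Real.log z := by
    rw [Real.le_log_iff_exp_le (by linarith)]
    linarith
  have hdz : (d : ℝ) ≤ (Real.log z) ^ (B + 1) := by
    calc (d : ℝ) ≤ (Real.log n) ^ B := hdB
      _ ≤ (14 * K * Real.log z) ^ B := pow_le_pow_left₀ hlogn0 hlogn2 _
      _ = (14 * K) ^ B * (Real.log z) ^ B := by rw [mul_pow]
      _ ≤ Real.log z * (Real.log z) ^ B := by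
          apply mul_le_mul_of_nonneg_right hlz (by positivity)
      _ = (Real.log z) ^ (B + 1) := by ring
  -- the modulus
  set m : ℕ := 2 ^ (k + 2) * d with hm
  have hmr : (m : ℝ) ≤ 4 * (n : ℝ) ^ (1 / (224 * K : ℝ)) := by
    rw [hm]
    push_cast
    rw [pow_add]
    nlinarith
  have hm0 : 0 < m := by
    rw [hm]
    have := hd.pos
    positivity
  have hm16 : m ^ 16 ≤ z := by
    have h4 : (m : ℝ) ^ 16 ≤ (4 * (n : ℝ) ^ (1 / (224 * K : ℝ))) ^ 16 :=
      pow_le_pow_left₀ (Nat.cast_nonneg _) hmr _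
    have h5 : ((n : ℝ) ^ (1 / (224 * K : ℝ))) ^ 16 = √t := by
      rw [ht, Real.sqrt_eq_rpow, ← Real.rpow_natCast, ← Real.rpow_mul hnr.le, ← Real.rpow_mul hnr.le]
      congr 1
      push_cast
      field_simp
      norm_num
    rw [mul_pow, h5] at h4
    have h6 : (2 * 4 ^ 16 : ℝ) ≤ √t := Real.le_sqrt_of_sq_le h2
    have h7 : √t * √t = t := Real.mul_self_sqrt ht0.le
    have h8 : (4 ^ 16 : ℝ) * √t ≤ t / 2 := by nlinarith [Real.sqrt_nonneg t]
    have h9 : (m : ℝ) ^ 16 ≤ z := by linarith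
    exact_mod_cast h9
  have hmz : m ≤ z := (Nat.le_self_pow (by norm_num) m).trans hm16
  have hm4 : 4 ∣ m := ⟨2 ^ k * d, by rw [hm]; ring⟩
  have hm2 : 2 ≤ m := by
    have := Nat.le_of_dvd hm0 hm4
    omega
  have hX : (z ^ K) ^ 6 ≤ n - 1 := by
    have h4 : z ^ (7 * K) ≤ n := zn_pow hK
    have h5 : z ^ (7 * K) = (z ^ K) ^ 6 * z ^ K := by
      rw [← pow_mul, ← pow_add]
      congr 1
      ring
    have h6 : 2 ≤ z ^ K := hz2.trans (Nat.le_self_pow (by omega) z)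
    rw [h5] at h4
    have h7 : 0 < (z ^ K) ^ 6 := by positivity
    have h8 : (z ^ K) ^ 6 * 2 ≤ n := (Nat.mul_le_mul_left _ h6).trans h4
    omega
  have hcop' : ∀ (_ : n % 2 = 0), (n - 1).Coprime m := by
    intro he
    rw [hm]
    apply Nat.Coprime.mul_right _ hcop
    apply Nat.Coprime.pow_right
    rw [Nat.coprime_two_right]
    rw [Nat.odd_iff]
    omega
  have hmm : ((2 ^ k * d : ℤ)) ∣ (m : ℤ) := ⟨4, by rw [hm]; push_cast; ring⟩
  constructor
  · intro h4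
    have hc := hcop' (by omega)
    obtain ⟨⟨p, hp1, hp2, hp3, hp4⟩, hq, hl⟩ := hz0 z (by omega) m (k + 2) d (n - 1) hm (by omega) hd hdz hm16 hc
    refine HasConf.of_dvd ?_ hmm
    refine conf_one hSEM hCORE hPAL (Or.inr rfl) hm4 hm2 hmz ?_ hn1 hX hc hp1 hp2 hp3 hp4 hq hl
    have e : ((n : ℤ) - 1) - (-1) = (n : ℤ) := by ring
    rw [e]
    exact_mod_cast h4
  · intro h4
    have hc := hcop' (by omega)
    obtain ⟨⟨p, hp1, hp2, hp3, hp4⟩, hq, hl⟩ := hz0 z (by omega) m (k + 2) d (n - 1) hm (by omega) hd hdz hm16 hc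
    refine HasConf.of_dvd ?_ hmm
    refine conf_one hSEM hCORE hPAL (Or.inl rfl) hm4 hm2 hmz ?_ hn1 hX hc hp1 hp2 hp3 hp4 hq hl
    omega

/-- St_FINAL: modular Hadamard matrices in all orders divisible by four -/
def St_FINAL : Prop := ∃ c : ℝ, 0 < c ∧ ∀ B : ℕ, ∃ n0 : ℕ, ∀ n : ℕ, n0 ≤ n → 4 ∣ n → ∀ k d : ℕ, Odd d →
  (d : ℝ) ≤ (Real.log n) ^ B → (2 : ℝ) ^ k * d ≤ (n : ℝ) ^ c →
  Nat.Coprime (n - 1) d ∨ Nat.Coprime (n / 2 - 1) d → HasMod (2 ^ k * d) n

theorem HasMod.of_dvd {m m' : ℤ} {n : ℕ} (h : HasMod m' n) (hm : m ∣ m') : HasMod m n := by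
  obtain ⟨H, h1, h2⟩ := h
  exact ⟨H, h1, fun i j hij => hm.trans (h2 i j hij)⟩

theorem final (hCONF : St_CONF) (hHAD : St_HAD) : St_FINAL := by
  obtain ⟨c, hc, hC⟩ := hCONF
  obtain ⟨hH1, hH2, hH3⟩ := hHAD
  refine ⟨c / 2, by positivity, fun B => ?_⟩
  obtain ⟨n0, hn0⟩ := hC (B + 1)
  -- n / 2 large
  have ev1 : ∀ᶠ n : ℕ in atTop, (2 : ℝ) ^ c ≤ (n : ℝ) ^ (c / 2) :=
    ((tendsto_rpow_atTop (by positivity)).comp tendsto_natCast_atTop_atTop).eventually_ge_atTop _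
  have ev2 : ∀ᶠ n : ℕ in atTop, (2 : ℝ) ^ B + 2 ≤ Real.log n :=
    (Real.tendsto_log_atTop.comp tendsto_natCast_atTop_atTop).eventually_ge_atTop _
  obtain ⟨n1, hn1⟩ := (ev1.and ev2).exists_forall_of_atTop
  refine ⟨max n1 (2 * n0 + 4), fun n hn h4 k d hd hdB hkd hor => ?_⟩
  obtain ⟨h1, h2⟩ := hn1 n ((le_max_left _ _).trans hn)
  have hn2 : 2 * n0 + 4 ≤ n := (le_max_right _ _).trans hn
  have hnr : (4 : ℝ) ≤ n := by exact_mod_cast (by omega : 4 ≤ n)
  have h2B : (1 : ℝ) ≤ 2 ^ B := one_le_pow₀ (by norm_num)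
  have hlog1 : 1 ≤ Real.log n := by linarith
  rcases hor with hor | hor
  · refine hH1 _ _ ((hn0 n (by omega) k d hd ?_ ?_ hor).1 h4)
    · refine hdB.trans (pow_le_pow_right₀ hlog1 (Nat.le_succ B))
    · refine hkd.trans ?_
      exact Real.rpow_le_rpow_of_exponent_le (by linarith) (by linarith)
  · -- order n / 2
    obtain ⟨r, hr⟩ : ∃ r, n = 2 * r := ⟨n / 2, by omega⟩
    have hr2 : n / 2 = r := by omega
    have hrr : (n : ℝ) = 2 * r := by rw [hr]; push_cast; ring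
    have hr1 : (2 : ℝ) ≤ r := by linarith
    have hlogr : Real.log n = Real.log 2 + Real.log r := by
      rw [hrr, Real.log_mul (by norm_num) (by linarith)]
    have hl2 : Real.log 2 < 1 := by
      have := Real.log_two_lt_d9
      linarith
    have hlogr2 : (2 : ℝ) ^ B ≤ Real.log r := by linarith
    have hd' : (d : ℝ) ≤ (Real.log r) ^ (B + 1) := by
      calc (d : ℝ) ≤ (Real.log n) ^ B := hdB
        _ ≤ (2 * Real.log r) ^ B := by
            apply pow_le_pow_left₀ (by linarith)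
            linarith
        _ = 2 ^ B * (Real.log r) ^ B := by rw [mul_pow]
        _ ≤ Real.log r * (Real.log r) ^ B := by
            apply mul_le_mul_of_nonneg_right hlogr2
            have : 0 ≤ Real.log r := by linarith
            positivity
        _ = (Real.log r) ^ (B + 1) := by ring
    have hkd' : (2 : ℝ) ^ k * d ≤ (r : ℝ) ^ c := by
      refine hkd.trans ?_
      have h5 : (n : ℝ) ^ c = (n : ℝ) ^ (c / 2) * (n : ℝ) ^ (c / 2) := by
        rw [← Real.rpow_add (by linarith)]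
        congr 1
        ring
      have h6 : (n : ℝ) ^ c = 2 ^ c * (r : ℝ) ^ c := by
        rw [hrr, Real.mul_rpow (by norm_num) (by linarith)]
      have h7 : (2 : ℝ) ^ c * (n : ℝ) ^ (c / 2) ≤ 2 ^ c * (r : ℝ) ^ c := by
        rw [← h6, h5]
        apply mul_le_mul_of_nonneg_right h1 (by positivity)
      exact le_of_mul_le_mul_left h7 (by positivity)
    rw [hr2] at hor
    obtain ⟨g1, g2⟩ := hn0 r (by omega) k d hd hd' hkd' hor
    have hdv : ((2 ^ k * d : ℤ)) ∣ 2 * (2 ^ k * d) := Dvd.intro_left _ rfl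
    rcases (show r % 4 = 0 ∨ r % 4 = 2 by omega) with h | h
    · have h5 := hH3 _ _ (hH1 _ _ (g1 (Nat.dvd_of_mod_eq_zero h)))
      rw [← hr] at h5
      exact h5.of_dvd hdv
    · have h5 := hH2 _ _ (g2 h)
      rw [← hr] at h5
      exact h5.of_dvd hdv

end Pool.Agent.W69.MH
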