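import Mathlib
import Pool.Agent.W69.MH.Conf2
import Pool.Agent.W333.MH.FL
import Pool.Agent.W933.MH.Sum
import Pool.Agent.W505.MH.Diff
import Pool.Agent.W505.MH.BT
import Pool.Agent.W74.MH.B0
import Pool.Agent.W440.MH.B2
import Pool.Agent.W639.MH.Alg
import Pool.Agent.W215.MH.Eul
import Pool.Agent.W193.MH.Cls
import Pool.Agent.W701.MH.Abs
import Pool.Agent.W215.MH.Lin
import Pool.Agent.W803.MH.Tail
import Pool.Agent.W803.MH.Real
import Pool.Agent.W928.MH.PR
import Pool.Agent.W806.MH.Gen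
import Pool.Agent.W372.MH.SEM
import Pool.Agent.W131.MH.Core
import Pool.Agent.W298.MH.Pal
import Pool.Agent.W930.MH.Had

/-! Assembly of the theorem on modular Hadamard matrices with moduli up to a power of the order. -/

namespace Pool.Agent.W69.MH

theorem main : St_FINAL := by
  have hSUM := Pool.Agent.W933.MHSum.sum_
  have hFL := Pool.Agent.W333.MH.fl
  have hDIFF := Pool.Agent.W505.MH.diff hFL hSUM
  have hA0 := Pool.Agent.W505.MH.a0 hFL hSUM
  have hCLS := Pool.Agent.W193.MH.Cls.cls hSUM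
  have hB0 := Pool.Agent.H262R3.Lk.b0 Pool.Agent.W505.MH.bt hSUM
  have hB2 := Pool.Agent.W440.MH.b2 hSUM
  have hALG := Pool.Agent.H262R3.Lk.alg hSUM
  have hLIN := Pool.Agent.W215.MH.lin hSUM hDIFF hA0 hB0 hB2 hALG Pool.Agent.W215.MH.eul hCLS
    Pool.Agent.W701.MH.abs_
  have hTAIL := Pool.Agent.W803.MH.tail Pool.Agent.W505.MH.bt hSUM
  exact final (conf (Pool.Agent.W806.MH.gen (Pool.Agent.W928.MH.pr hLIN hTAIL
    Pool.Agent.W803.MH.real_)) Pool.Agent.W372.MH.sem Pool.Agent.W131.MH.core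
    Pool.Agent.W298.MH.pal) Pool.Agent.W930.MH.had

end Pool.Agent.W69.MH
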